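import Pool.Agent.N536.OP.Fin

/-!
# Tate classes in all tensor words: the final statement
-/

set_option autoImplicit false
set_option linter.unusedSectionVars false
set_option linter.style.haveILetI false

open Matrix Polynomial Filter Topology NumberField IsDedekindDomain Module
open Pool.Agent.Y142.ZO Pool.Agent.Y142.ZI Pool.Agent.Y142.ZS
open Pool.Agent.R932.OP Pool.Agent.R932.EV Pool.Agent.R932.PO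

namespace Pool.Agent.N536.OP

section
variable {K : Type} [Field K] [NumberField K] {ι : Type} [Fintype ι] [DecidableEq ι] {N w : ι → ℕ}
  {S : Set (HeightOneSpectrum (𝓞 K))} {P : ι → HeightOneSpectrum (𝓞 K) → ℚ[X]} {kd : ι → Kind}

/-- over the rational numbers, at every prime -/
theorem words_every (hS : S.Finite) (J : ∀ i, Matrix (Fin (N i)) (Fin (N i)) ℚ)
    (hfit : ∀ i, Fits (kd i) (J i)) (hdet : ∀ i, (J i).det ≠ 0) (hw : ∀ i, (J i)ᵀ = J i → w i = 0)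
    (κ : ∀ (ℓ : ℕ) [Fact ℓ.Prime], GK K →* ℚ_[ℓ]) (hκc : ∀ (ℓ : ℕ) [Fact ℓ.Prime], Continuous (κ ℓ))
    (hκ : ∀ (ℓ : ℕ) [Fact ℓ.Prime], ∀ v ∉ S, (ℓ : 𝓞 K) ∉ v.asIdeal → ∀ σ : GK K, IsFrobenius v σ →
      κ ℓ σ⁻¹ = (Ideal.absNorm v.asIdeal : ℚ_[ℓ]))
    (ρ : ∀ (i : ι) (ℓ : ℕ) [Fact ℓ.Prime], GK K →* Matrix (Fin (N i)) (Fin (N i)) ℚ_[ℓ])
    (hρc : ∀ (i : ι) (ℓ : ℕ) [Fact ℓ.Prime], Continuous (ρ i ℓ))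
    (hmult : ∀ (i : ι) (ℓ : ℕ) [Fact ℓ.Prime] (g : GK K),
      Sim (JL J ℓ i) (ρ i ℓ g) (κ ℓ g ^ w i))
    (hfrob : ∀ (i : ι) (ℓ : ℕ) [Fact ℓ.Prime], ∀ v ∉ S, (ℓ : 𝓞 K) ∉ v.asIdeal → ∀ σ : GK K,
      IsFrobenius v σ → (ρ i ℓ σ⁻¹).charpoly = (P i v).map (algebraMap ℚ ℚ_[ℓ]))
    (ℓ₀ : ℕ) [hℓ₀ : Fact ℓ₀.Prime] (hal : ∀ i, Allows (kd i) (N i) ℓ₀ (JL J ℓ₀ i))
    (hT4 : ∀ a : Fin 4 → ι, a 0 = a 1 → a 2 = a 3 → ∀ j, ∑ t, w (a t) = 2 * j → ∀ T,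
      IsTate (fun i => ρ i ℓ₀) (κ ℓ₀) a j T → Killed (JL J ℓ₀) a T)
    (hS2 : ∀ i, Semi2 ℓ₀ (ρ i ℓ₀))
    (hns : ∀ i, ∃ v ∉ S, (ℓ₀ : 𝓞 K) ∉ v.asIdeal ∧ ∀ n : ℕ, 0 < n →
      ∃ x : ℂ, aeval x (P i v) = 0 ∧ x ^ (2 * n) ≠ (((Ideal.absNorm v.asIdeal : ℚ) ^ w i : ℚ) : ℂ) ^ n)
    (hK : finrank ℚ K = 1) (m : ι → ℕ) (hm : ∀ i, 0 < w i + 2 * m i)
    (hint : ∀ i, ∀ v ∉ S, ∃ R : ℤ[X],
      R.map (algebraMap ℤ ℚ) = (P i v).scaleRoots ((Ideal.absNorm v.asIdeal : ℚ) ^ m i))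
    (hpure : ∀ i, ∀ v ∉ S, ∀ z : ℂ, aeval z (P i v) = 0 →
      ‖z‖ ^ 2 = (Ideal.absNorm v.asIdeal : ℝ) ^ w i) :
    ∀ (ℓ : ℕ) [Fact ℓ.Prime],
      (∀ a : Fin 2 → ι, a 0 = a 1 → ∀ j, ∑ t, w (a t) = 2 * j → ∀ T,
        IsTate (fun i => ρ i ℓ) (κ ℓ) a j T → Killed (JL J ℓ) a T) →
      ∀ (k : ℕ) (a : Fin k → ι) (j : ℕ), ∑ t, w (a t) = 2 * j → ∀ T,
        IsTate (fun i => ρ i ℓ) (κ ℓ) a j T ↔ Killed (JL J ℓ) a T := by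
  intro ℓ _ h2
  refine (final_mt hS J hfit hdet hw κ hκc hκ ρ hρc hmult hfrob ℓ₀ hal hT4 hS2 hns).2 ℓ
    (fun i => ?_) h2
  have hone := hone_of (w := w) J hfit hdet ℓ₀ (κ ℓ₀) (hκ ℓ₀) (fun i => ρ i ℓ₀) (fun i => hρc i ℓ₀)
    (fun i => hmult i ℓ₀) (fun i => hfrob i ℓ₀) hT4 hS2 hns
  have hform : ∀ (ℓ : ℕ) [Fact ℓ.Prime] (i : ι), IsForm (JL J ℓ i) := fun ℓ _ i =>
    ((hfit i).map (algebraMap ℚ ℚ_[ℓ])).isForm (det_map_ne (algebraMap ℚ ℚ_[ℓ]) (hdet i))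
  exact ss_every hK (MonoidHom.id (GK K)) continuous_id (w := w i) hS (fun ℓ _ => JL J ℓ i)
    (fun ℓ _ => hform ℓ i) κ hκc hκ (ρ i) (hρc i) (hmult i) (hfrob i) (m i) (hm i) (hint i)
    (hpure i) ℓ₀ (hone i) ℓ

end

end Pool.Agent.N536.OP
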