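import Pool.Agent.R932.SQ.Main

/-!
# Semisimplicity at every prime from one prime, for systems with a Tate twist
-/

set_option autoImplicit false
set_option linter.unusedSectionVars false

open Matrix Polynomial Filter Topology NumberField IsDedekindDomain Module
open Pool.Agent.Y142.ZO Pool.Agent.Y142.ZI Pool.Agent.Y142.ZS
open Pool.Agent.R932.PO (JTan IsForm Kind Fits Allows Sys JL det_map_ne)
open Pool.Agent.R932.EV (SS SC)

namespace Pool.Agent.N536.OP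

/-- the characteristic polynomial of a multiple -/
theorem charpoly_smul' {F : Type} [Field F] [Infinite F] {n : ℕ} (A : Matrix (Fin n) (Fin n) F)
    {c : F} (hc : c ≠ 0) : (c • A).charpoly = A.charpoly.scaleRoots c := by
  refine Polynomial.funext fun x => ?_
  have h1 : x = c * (x / c) := by field_simp
  rw [Matrix.eval_charpoly, h1]
  have h2 : (Matrix.scalar (Fin n)) (c * (x / c)) - c • A = c • ((Matrix.scalar (Fin n)) (x / c) - A) := by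
    rw [smul_sub]
    congr 1
    ext i j
    simp [Matrix.diagonal_apply, mul_ite]
  rw [h2, Matrix.det_smul, ← Matrix.eval_charpoly, Fintype.card_fin]
  have h3 := Polynomial.scaleRoots_eval₂_mul (p := A.charpoly) (RingHom.id F) (x / c) c
  simp only [RingHom.id_apply] at h3
  rw [Polynomial.eval₂_id, Polynomial.eval₂_id] at h3
  rw [h3, Matrix.charpoly_natDegree_eq_dim, Fintype.card_fin]

section twist
variable {Γ : Type} [Group Γ] {F : Type} [Field F] {N : ℕ}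

/-- the twist of a representation by a power of a character -/
def tw (ρ : Γ →* Matrix (Fin N) (Fin N) F) (κ : Γ →* F) (m : ℕ) :
    Γ →* Matrix (Fin N) (Fin N) F where
  toFun g := κ g ^ m • ρ g
  map_one' := by rw [map_one, map_one, one_pow, one_smul]
  map_mul' g h := by rw [map_mul, map_mul, mul_pow, smul_mul_smul_comm]

theorem tw_apply (ρ : Γ →* Matrix (Fin N) (Fin N) F) (κ : Γ →* F) (m : ℕ) (g : Γ) :
    tw ρ κ m g = κ g ^ m • ρ g := rfl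

theorem char_ne (κ : Γ →* F) (g : Γ) : κ g ≠ 0 := by
  intro h
  have h1 : κ (g * g⁻¹) = 1 := by rw [mul_inv_cancel, map_one]
  rw [map_mul, h, zero_mul] at h1
  exact zero_ne_one h1

theorem char_comm (κ : Γ →* F) (a b : Γ) : κ (a * b * a⁻¹ * b⁻¹) = 1 := by
  have h1 : κ a * κ a⁻¹ = 1 := by rw [← map_mul, mul_inv_cancel, map_one]
  have h2 : κ b * κ b⁻¹ = 1 := by rw [← map_mul, mul_inv_cancel, map_one]
  rw [map_mul, map_mul, map_mul]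
  calc κ a * κ b * κ a⁻¹ * κ b⁻¹ = (κ a * κ a⁻¹) * (κ b * κ b⁻¹) := by ring
    _ = 1 := by rw [h1, h2, one_mul]

end twist

section tangent
variable {ℓ : ℕ} [hℓ : Fact ℓ.Prime] {G : Type} [Group G] {N : ℕ}

open Pool.Agent.Y708.ZO (dq eq_of_dq rho_tendsto rho_inv_tendsto)

attribute [local instance] Matrix.normedAddCommGroup Matrix.normedSpace

/-- brackets of tangent vectors are tangent to the image of a twist -/
theorem tangent_tw (ρ : G →* Matrix (Fin N) (Fin N) ℚ_[ℓ]) (κ : G →* ℚ_[ℓ]) (m : ℕ)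
    {X Y : Matrix (Fin N) (Fin N) ℚ_[ℓ]} (hX : IsTangent ℓ ρ X) (hY : IsTangent ℓ ρ Y) :
    IsTangent ℓ (tw ρ κ m) (X * Y - Y * X) := by
  obtain ⟨σ, hσ⟩ := hX
  obtain ⟨τ, hτ⟩ := hY
  have t1 : Tendsto (fun m : ℕ => m / 2) atTop atTop := Nat.tendsto_div_const_atTop (by norm_num)
  have t2 : Tendsto (fun m : ℕ => m - m / 2) atTop atTop :=
    tendsto_atTop_mono (fun m => by omega) t1
  refine ⟨fun m => σ (m / 2) * τ (m - m / 2) * (σ (m / 2))⁻¹ * (τ (m - m / 2))⁻¹, ?_⟩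
  have hρσ := rho_tendsto ρ hσ
  have hρτ := rho_tendsto ρ hτ
  have hiσ := rho_inv_tendsto ρ hρσ
  have hiτ := rho_inv_tendsto ρ hρτ
  have h1 := (((Tendsto.mul (hσ.comp t1) (hτ.comp t2)).sub
    (Tendsto.mul (hτ.comp t2) (hσ.comp t1))).mul (hiσ.comp t1)).mul (hiτ.comp t2)
  rw [mul_one, mul_one] at h1
  refine h1.congr fun k => ?_
  simp only [Function.comp_apply]
  obtain ⟨a, ha⟩ : ∃ a, a = σ (k / 2) := ⟨_, rfl⟩
  obtain ⟨b, hb⟩ : ∃ b, b = τ (k - k / 2) := ⟨_, rfl⟩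
  rw [← ha, ← hb]
  have e1 : ρ b * ρ a * ρ a⁻¹ * ρ b⁻¹ = 1 := by
    rw [← map_mul, ← map_mul, ← map_mul]
    have : b * a * a⁻¹ * b⁻¹ = 1 := by group
    rw [this, map_one]
  have e2 : tw ρ κ m (a * b * a⁻¹ * b⁻¹) = ρ a * ρ b * ρ a⁻¹ * ρ b⁻¹ := by
    rw [tw_apply, char_comm, one_pow, one_smul, map_mul, map_mul, map_mul]
  have e3 : ((ℓ : ℚ_[ℓ]) ^ k)⁻¹ = ((ℓ : ℚ_[ℓ]) ^ (k / 2))⁻¹ * ((ℓ : ℚ_[ℓ]) ^ (k - k / 2))⁻¹ := by
    rw [← mul_inv, ← pow_add]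
    congr 2
    omega
  rw [e2, e3]
  have e4 : ρ a * ρ b * ρ a⁻¹ * ρ b⁻¹ - 1 =
      ((ρ a - 1) * (ρ b - 1) - (ρ b - 1) * (ρ a - 1)) * ρ a⁻¹ * ρ b⁻¹ := by
    have e5 : (ρ a - 1) * (ρ b - 1) - (ρ b - 1) * (ρ a - 1) = ρ a * ρ b - ρ b * ρ a := by
      noncomm_ring
    rw [e5, sub_mul, sub_mul, e1]
  rw [e4]
  generalize ρ a - 1 = A
  generalize ρ b - 1 = B
  generalize ((ℓ : ℚ_[ℓ]) ^ (k / 2))⁻¹ = c
  generalize ((ℓ : ℚ_[ℓ]) ^ (k - k / 2))⁻¹ = d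
  rw [smul_mul_smul_comm, smul_mul_smul_comm, mul_comm d c, ← smul_sub, smul_mul_assoc,
    smul_mul_assoc]

/-- the Lie algebra of the image of a twist is full -/
theorem full_tw {ρ : G →* Matrix (Fin N) (Fin N) ℚ_[ℓ]} (κ : G →* ℚ_[ℓ]) (m : ℕ)
    {J : Matrix (Fin N) (Fin N) ℚ_[ℓ]} (hJ : IsForm J)
    (hfull : ∀ X, SpLie J X → IsTangent ℓ ρ X) :
    ∀ X, SpLie J X → IsTangent ℓ (tw ρ κ m) X := by
  intro X hX
  obtain ⟨𝔤, h𝔤, -⟩ := Pool.Agent.Y708.ZO.t ℓ N G (tw ρ κ m)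
  refine (h𝔤 X).1 (Pool.Agent.R932.PO.JO.perfect hJ 𝔤 (fun A B hA hB => (h𝔤 _).2 ?_) hX)
  exact tangent_tw ρ κ m (hfull A hA) (hfull B hB)

end tangent

/-- **semisimplicity at every prime** -/
theorem ss_every {K : Type} [Field K] [NumberField K] (hK : finrank ℚ K = 1)
    {Γ : Type} [Group Γ] [TopologicalSpace Γ] (s : GK K →* Γ) (hs : Continuous s) {N w : ℕ}
    {S : Set (HeightOneSpectrum (𝓞 K))} (hS : S.Finite) {P : HeightOneSpectrum (𝓞 K) → ℚ[X]}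
    (J : ∀ (ℓ : ℕ) [Fact ℓ.Prime], Matrix (Fin N) (Fin N) ℚ_[ℓ])
    (hJ : ∀ (ℓ : ℕ) [Fact ℓ.Prime], IsForm (J ℓ))
    (κ : ∀ (ℓ : ℕ) [Fact ℓ.Prime], Γ →* ℚ_[ℓ])
    (hκc : ∀ (ℓ : ℕ) [Fact ℓ.Prime], Continuous fun g => κ ℓ (s g))
    (hκ : ∀ (ℓ : ℕ) [Fact ℓ.Prime], ∀ v ∉ S, (ℓ : 𝓞 K) ∉ v.asIdeal → ∀ σ : GK K, IsFrobenius v σ →
      κ ℓ (s σ⁻¹) = (Ideal.absNorm v.asIdeal : ℚ_[ℓ]))
    (ρ : ∀ (ℓ : ℕ) [Fact ℓ.Prime], Γ →* Matrix (Fin N) (Fin N) ℚ_[ℓ])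
    (hρc : ∀ (ℓ : ℕ) [Fact ℓ.Prime], Continuous (ρ ℓ))
    (hmult : ∀ (ℓ : ℕ) [Fact ℓ.Prime] (g : Γ), Sim (J ℓ) (ρ ℓ g) (κ ℓ g ^ w))
    (hfrob : ∀ (ℓ : ℕ) [Fact ℓ.Prime], ∀ v ∉ S, (ℓ : 𝓞 K) ∉ v.asIdeal → ∀ σ : GK K,
      IsFrobenius v σ → (ρ ℓ (s σ⁻¹)).charpoly = (P v).map (algebraMap ℚ ℚ_[ℓ]))
    (m : ℕ) (hm : 0 < w + 2 * m)
    (hint : ∀ v ∉ S, ∃ R : ℤ[X],
      R.map (algebraMap ℤ ℚ) = (P v).scaleRoots ((Ideal.absNorm v.asIdeal : ℚ) ^ m))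
    (hpure : ∀ v ∉ S, ∀ z : ℂ, aeval z (P v) = 0 → ‖z‖ ^ 2 = (Ideal.absNorm v.asIdeal : ℝ) ^ w)
    (ℓ₀ : ℕ) [hℓ₀ : Fact ℓ₀.Prime]
    (hfull : ∀ X, SpLie (J ℓ₀) X → IsTangent ℓ₀ ((ρ ℓ₀).comp s) X) (ℓ : ℕ) [hℓ : Fact ℓ.Prime] :
    SS (ρ ℓ) := by
  classical
  have hmonic : ∀ v ∉ S, (P v).Monic := by
    intro v hv
    obtain ⟨p, hp, hpv⟩ : ∃ p : ℕ, ∃ _ : Fact p.Prime, (p : 𝓞 K) ∉ v.asIdeal := by
      by_cases h2 : ((2 : ℕ) : 𝓞 K) ∈ v.asIdeal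
      · refine ⟨3, ⟨by norm_num⟩, fun h3 => v.isPrime.ne_top ?_⟩
        rw [Ideal.eq_top_iff_one]
        have h4 := v.asIdeal.sub_mem h3 h2
        have h5 : ((3 : ℕ) : 𝓞 K) - ((2 : ℕ) : 𝓞 K) = 1 := by push_cast; norm_num
        rwa [h5] at h4
      · exact ⟨2, ⟨by norm_num⟩, h2⟩
    obtain ⟨σ, hσ⟩ := Pool.Agent.W401.Frob.exists_frob v
    have h1 := hfrob p v hv hpv σ hσ
    refine Polynomial.monic_of_injective (algebraMap ℚ ℚ_[p]).injective ?_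
    rw [← h1]
    exact Matrix.charpoly_monic _
  obtain ⟨R, hR⟩ : ∃ R : HeightOneSpectrum (𝓞 K) → ℤ[X], ∀ v ∉ S,
      (R v).map (algebraMap ℤ ℚ) = (P v).scaleRoots ((Ideal.absNorm v.asIdeal : ℚ) ^ m) :=
    ⟨fun v => if h : v ∉ S then (hint v h).choose else 1, fun v hv => by
      show Polynomial.map (algebraMap ℤ ℚ) (if h : v ∉ S then (hint v h).choose else 1) = _
      rw [dif_pos hv]
      exact (hint v hv).choose_spec⟩
  have hN0 : ∀ v : HeightOneSpectrum (𝓞 K), (Ideal.absNorm v.asIdeal : ℝ) ≠ 0 := by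
    intro v
    have h1 : Ideal.absNorm v.asIdeal ≠ 0 := by
      rw [Ne, Ideal.absNorm_eq_zero_iff]
      exact v.ne_bot
    exact_mod_cast h1
  have hRm : ∀ v ∉ S, (R v).Monic ∧
      ∀ z : ℂ, aeval z (R v) = 0 → ‖z‖ ^ 2 = (Ideal.absNorm v.asIdeal : ℝ) ^ (w + 2 * m) := by
    intro v hv
    constructor
    · refine Polynomial.monic_of_injective (algebraMap ℤ ℚ).injective_int ?_
      rw [hR v hv]
      exact (monic_scaleRoots_iff _).mpr (hmonic v hv)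
    · intro z hz
      have hc : ((Ideal.absNorm v.asIdeal : ℂ) ^ m) ≠ 0 := by
        refine pow_ne_zero _ ?_
        have h1 := hN0 v
        exact_mod_cast h1
      have h1 : aeval z ((R v).map (algebraMap ℤ ℚ)) = 0 := by
        rw [aeval_map_algebraMap]
        exact hz
      rw [hR v hv] at h1
      have h2 := Polynomial.scaleRoots_eval₂_mul (p := P v) (algebraMap ℚ ℂ)
        (z / (Ideal.absNorm v.asIdeal : ℂ) ^ m) ((Ideal.absNorm v.asIdeal : ℚ) ^ m)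
      have h3 : (algebraMap ℚ ℂ) ((Ideal.absNorm v.asIdeal : ℚ) ^ m) =
          (Ideal.absNorm v.asIdeal : ℂ) ^ m := by simp
      rw [h3, mul_div_cancel₀ _ hc] at h2
      rw [Polynomial.aeval_def] at h1
      rw [h1] at h2
      have h4 : aeval (z / (Ideal.absNorm v.asIdeal : ℂ) ^ m) (P v) = 0 := by
        rw [Polynomial.aeval_def]
        rcases mul_eq_zero.1 h2.symm with h5 | h5
        · exact absurd h5 (pow_ne_zero _ hc)
        · exact h5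
      have h5 := hpure v hv _ h4
      rw [norm_div, div_pow, div_eq_iff (by
        refine pow_ne_zero _ ?_
        rw [norm_ne_zero_iff]
        exact hc)] at h5
      rw [h5, norm_pow, pow_add, Complex.norm_natCast, ← pow_mul, mul_comm m 2]
  have hsm := Pool.Agent.R932.SQ.semisimple_full hK s hm hS R hRm
    (fun ℓ _ => tw (ρ ℓ) (κ ℓ) m) (fun ℓ _ => ?_) J
    (fun ℓ _ => by
      rcases (hJ ℓ).1 with h | h
      · exact Or.inl h.1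
      · exact Or.inr h)
    (fun ℓ _ => (hJ ℓ).2) (fun ℓ _ g => κ ℓ g ^ (w + 2 * m)) (fun ℓ _ g => ?_)
    (fun ℓ _ v hv hvℓ σ hσ => ?_) ℓ₀ ?_ ℓ
  · intro W hW
    have hst : ∀ g : Γ, ∀ x ∈ W, tw (ρ ℓ) (κ ℓ) m g *ᵥ x ∈ W := by
      intro g x hx
      rw [tw_apply, smul_mulVec]
      exact W.smul_mem _ (hW g x hx)
    obtain ⟨h1, h2⟩ := hsm W hst
    refine ⟨_, h1, fun σ x hx => ?_⟩
    have h3 := h2 σ x hx
    rw [tw_apply, smul_mulVec] at h3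
    have h4 := Submodule.smul_mem _ (κ ℓ σ ^ m)⁻¹ h3
    rwa [smul_smul, inv_mul_cancel₀ (pow_ne_zero _ (char_ne _ _)), one_smul] at h4
  · have h1 : Continuous fun g : GK K => κ ℓ (s g) ^ m • ρ ℓ (s g) :=
      ((hκc ℓ).pow m).smul ((hρc ℓ).comp hs)
    exact h1
  · have h1 : (ρ ℓ g)ᵀ * J ℓ * ρ ℓ g = κ ℓ g ^ w • J ℓ := hmult ℓ g
    show (κ ℓ g ^ m • ρ ℓ g)ᵀ * J ℓ * (κ ℓ g ^ m • ρ ℓ g) = κ ℓ g ^ (w + 2 * m) • J ℓ
    rw [transpose_smul, smul_mul_assoc, smul_mul_assoc, mul_smul_comm, smul_smul, h1, smul_smul]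
    congr 1
    ring
  · refine ⟨?_, ?_⟩
    · show (κ ℓ (s σ⁻¹) ^ m • ρ ℓ (s σ⁻¹)).charpoly = _
      rw [charpoly_smul' _ (pow_ne_zero _ (char_ne _ _)), hfrob ℓ v hv hvℓ σ hσ, hκ ℓ v hv hvℓ σ hσ]
      have h1 : (R v).map (algebraMap ℤ ℚ_[ℓ]) =
          ((R v).map (algebraMap ℤ ℚ)).map (algebraMap ℚ ℚ_[ℓ]) := by
        rw [Polynomial.map_map]
        congr 1
      rw [h1, hR v hv, map_scaleRoots]
      · congr 1
      · rw [(hmonic v hv).leadingCoeff, map_one]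
        exact one_ne_zero
    · show κ ℓ (s σ⁻¹) ^ (w + 2 * m) = _
      rw [hκ ℓ v hv hvℓ σ hσ]
  · have h1 := full_tw ((κ ℓ₀).comp s) m (hJ ℓ₀) hfull
    exact h1

end Pool.Agent.N536.OP
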