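import Pool.Agent.R932.PO.Fin2
import Pool.Agent.N536.OP.Semi

/-!
# Tate classes in all tensor words from the Tate classes of degree four at one prime
-/

set_option autoImplicit false
set_option linter.unusedSectionVars false
set_option linter.style.haveILetI false

open Matrix Polynomial Filter Topology NumberField IsDedekindDomain Module
open Pool.Agent.Y142.ZO Pool.Agent.Y142.ZI Pool.Agent.Y142.ZS
open Pool.Agent.R932.OP Pool.Agent.R932.EV Pool.Agent.R932.PO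

namespace Pool.Agent.N536.OP

section
variable {K : Type} [Field K] [NumberField K] {ι : Type} [Fintype ι] [DecidableEq ι] {N w : ι → ℕ}
  {S : Set (HeightOneSpectrum (𝓞 K))} {P : ι → HeightOneSpectrum (𝓞 K) → ℚ[X]} {kd : ι → Kind}

/-- the Lie algebras at the prime `ℓ₀` -/
theorem hone_of (J : ∀ i, Matrix (Fin (N i)) (Fin (N i)) ℚ)
    (hfit : ∀ i, Fits (kd i) (J i)) (hdet : ∀ i, (J i).det ≠ 0)
    (ℓ₀ : ℕ) [hℓ₀ : Fact ℓ₀.Prime]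
    (κ : GK K →* ℚ_[ℓ₀])
    (hκ : ∀ v ∉ S, (ℓ₀ : 𝓞 K) ∉ v.asIdeal → ∀ σ : GK K, IsFrobenius v σ →
      κ σ⁻¹ = (Ideal.absNorm v.asIdeal : ℚ_[ℓ₀]))
    (ρ : ∀ (i : ι), GK K →* Matrix (Fin (N i)) (Fin (N i)) ℚ_[ℓ₀])
    (hρc : ∀ (i : ι), Continuous (ρ i))
    (hmult : ∀ (i : ι) (g : GK K), Sim (JL J ℓ₀ i) (ρ i g) (κ g ^ w i))
    (hfrob : ∀ (i : ι), ∀ v ∉ S, (ℓ₀ : 𝓞 K) ∉ v.asIdeal → ∀ σ : GK K,
      IsFrobenius v σ → (ρ i σ⁻¹).charpoly = (P i v).map (algebraMap ℚ ℚ_[ℓ₀]))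
    (hT4 : ∀ a : Fin 4 → ι, a 0 = a 1 → a 2 = a 3 → ∀ j, ∑ t, w (a t) = 2 * j → ∀ T,
      IsTate ρ κ a j T → Killed (JL J ℓ₀) a T)
    (hS2 : ∀ i, Semi2 ℓ₀ (ρ i))
    (hns : ∀ i, ∃ v ∉ S, (ℓ₀ : 𝓞 K) ∉ v.asIdeal ∧ ∀ n : ℕ, 0 < n →
      ∃ x : ℂ, aeval x (P i v) = 0 ∧ x ^ (2 * n) ≠ (((Ideal.absNorm v.asIdeal : ℚ) ^ w i : ℚ) : ℂ) ^ n) :
    ∀ i X, SpLie (JL J ℓ₀ i) X → IsTangent ℓ₀ (ρ i) X := by
  have hdetL : ∀ (i : ι), (JL J ℓ₀ i).det ≠ 0 := fun i =>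
    det_map_ne (algebraMap ℚ ℚ_[ℓ₀]) (hdet i)
  have hfitL : ∀ (i : ι), Fits (kd i) (JL J ℓ₀ i) := fun i =>
    (hfit i).map (algebraMap ℚ ℚ_[ℓ₀])
  have hform : ∀ (i : ι), IsForm (JL J ℓ₀ i) := fun i =>
    (hfitL i).isForm (hdetL i)
  intro i
  obtain ⟨v, hvS, hvℓ, hnv⟩ := hns i
  obtain ⟨σ, hσ⟩ := Pool.Agent.W401.Frob.exists_frob v
  have hN2 : 2 ≤ N i := by
    rcases (hfitL i).symm with h | h
    · rcases (hform i).1 with h' | h'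
      · have := h'.2
        omega
      · obtain ⟨k, hk⟩ := even_of_alt h' (hdetL i)
        have := (hfit i).pos
        omega
    · obtain ⟨k, hk⟩ := even_of_alt h (hdetL i)
      have := (hfit i).pos
      omega
  have h4 : Tate4 ℓ₀ (ρ i) (JL J ℓ₀ i) := by
    refine tate4_of (ρ := fun i => ρ i) (J := JL J ℓ₀) (κ := κ) (w := w) i (hform i)
      (hfit i).pos (hmult i) fun T hT => ?_
    refine hT4 (fun _ => i) rfl rfl (2 * w i) ?_ T hT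
    rw [Finset.sum_const, Finset.card_univ, Fintype.card_fin, smul_eq_mul]
    ring
  obtain ⟨ε, hε, hJε⟩ : ∃ ε : ℚ_[ℓ₀], (ε = 1 ∨ ε = -1) ∧ (JL J ℓ₀ i)ᵀ = ε • JL J ℓ₀ i := by
    rcases (hfitL i).symm with h | h
    · exact ⟨1, Or.inl rfl, by rw [one_smul]; exact h⟩
    · exact ⟨-1, Or.inr rfl, by rw [neg_one_smul]; exact h⟩
  have hsim : ∀ (g : GK K), ∃ c, Sim (JL J ℓ₀ i) (ρ i g) c := fun g => ⟨_, hmult i g⟩
  refine full_of_tate4 Y708.ZO.t Y497.ZO.log Y497.ZO.pow (hρc i) hN2 hε hJε (hdetL i)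
    hsim h4 (hS2 i) (σ₀ := σ⁻¹) fun n c hn => ?_
  refine nonscalar (P := P i v) (q := (Ideal.absNorm v.asIdeal : ℚ) ^ w i) (hfit i).pos (hdetL i)
    (hfrob i v hvS hvℓ σ hσ) ?_ hnv n c hn
  have h1 : Sim (JL J ℓ₀ i) (ρ i σ⁻¹) (κ σ⁻¹ ^ w i) := hmult i σ⁻¹
  rw [hκ v hvS hvℓ σ hσ] at h1
  show (ρ i σ⁻¹)ᵀ * JL J ℓ₀ i * ρ i σ⁻¹ = (((Ideal.absNorm v.asIdeal : ℚ) ^ w i : ℚ) : ℚ_[ℓ₀]) •
    JL J ℓ₀ i
  rw [Rat.cast_pow, Rat.cast_natCast]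
  exact h1

end

end Pool.Agent.N536.OP
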