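import Pool.Agent.R932.GR.Art
import Pool.Agent.N536.OP.Semi

/-!
# The motivic Tate conjecture at every prime from one prime, for motives with a rational point
-/

set_option autoImplicit false
set_option linter.unusedSectionVars false
set_option linter.style.haveILetI false

open Matrix Polynomial Filter Topology NumberField IsDedekindDomain Module
open Pool.Agent.Y142.ZO Pool.Agent.Y142.ZS
open Pool.Agent.R932.PO (JTan IsForm Kind Fits Allows Sys JL det_map_ne)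
open Pool.Agent.R932.EV (SS SC)
open Pool.Agent.R932.GR

namespace Pool.Agent.N536.OP

section
variable {K : Type} [Field K] [NumberField K] {Γ : Type} [Group Γ] [TopologicalSpace Γ]
  [IsTopologicalGroup Γ] [CompactSpace Γ] {ι : Type} [Fintype ι] [DecidableEq ι] {N w : ι → ℕ}
  {m : ℕ} {S : Set (HeightOneSpectrum (𝓞 K))} {P : ι → HeightOneSpectrum (𝓞 K) → ℚ[X]}
  {kd : ι → Kind} {s : GK K →* Γ}

/-- the joint Lie algebra at the prime `ℓ₀` -/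
theorem full_one (hs : Continuous s)
    (J : ∀ i, Matrix (Fin (N i)) (Fin (N i)) ℚ)
    (hfit : ∀ i, Fits (kd i) (J i)) (hdet : ∀ i, (J i).det ≠ 0)
    (α : Γ →* Matrix (Fin m) (Fin m) ℚ)
    (ℓ₀ : ℕ) [hℓ₀ : Fact ℓ₀.Prime]
    (κ : Γ →* ℚ_[ℓ₀])
    (ρ : ∀ (i : ι), Γ →* Matrix (Fin (N i)) (Fin (N i)) ℚ_[ℓ₀])
    (hρc : ∀ (i : ι), Continuous (ρ i))
    (hmult : ∀ (i : ι) (g : Γ), Sim (JL J ℓ₀ i) (ρ i g) (κ g ^ w i))
    (Pol : Set (Pa ℚ N m))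
    (hbig : ∀ x : ∀ i, Matrix (Fin (N i)) (Fin (N i)) ℂ,
      (∀ i, (x i)ᵀ * (J i).map (algebraMap ℚ ℂ) * x i = (J i).map (algebraMap ℚ ℂ)) →
      (∀ i, (x i).det = 1) → ∀ f ∈ Pol, vala f x (1 : Matrix (Fin m) (Fin m) ℂ) = 0)
    (hone : MTateA Pol (fun i => (ρ i).comp s) (α.comp s)) :
    ∀ X, (∀ i, SpLie (JL J ℓ₀ i) (X i)) → JTan ℓ₀ (fun i => (ρ i).comp s) X := by
  classical
  have hfitL : ∀ (i : ι), Fits (kd i) (JL J ℓ₀ i) := fun i =>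
    (hfit i).map (algebraMap ℚ ℚ_[ℓ₀])
  have hdetL : ∀ (i : ι), (JL J ℓ₀ i).det ≠ 0 := fun i =>
    det_map_ne (algebraMap ℚ ℚ_[ℓ₀]) (hdet i)
  have hform : ∀ (i : ι), IsForm (JL J ℓ₀ i) := fun i =>
    (hfitL i).isForm (hdetL i)
  have hpos : ∀ i, 0 < N i := fun i => (hfit i).pos
  have hJC : ∀ (e : Lc ℓ₀ →+* ℂ) (i : ι),
      (up (JL J ℓ₀) i).map e = (J i).map (algebraMap ℚ ℂ) := by
    intro e i
    ext k l
    show e (algebraMap ℚ_[ℓ₀] (Lc ℓ₀) (algebraMap ℚ ℚ_[ℓ₀] (J i k l))) = algebraMap ℚ ℂ (J i k l)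
    have h7 : e.comp ((algebraMap ℚ_[ℓ₀] (Lc ℓ₀)).comp (algebraMap ℚ ℚ_[ℓ₀])) = algebraMap ℚ ℂ :=
      Subsingleton.elim _ _
    exact RingHom.congr_fun h7 _
  have hmd : ∀ {F F' : Type} [Field F] [Field F'] (e : F →+* F') {n : ℕ}
      (A : Matrix (Fin n) (Fin n) F), (A.map e).det = e A.det := by
    intro F F' _ _ e n A
    rw [RingHom.map_det, RingHom.mapMatrix_apply]
  have hbigL : ∀ x : ∀ i, Matrix (Fin (N i)) (Fin (N i)) (Lc ℓ₀),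
      (∀ i, (x i)ᵀ * up (JL J ℓ₀) i * x i = up (JL J ℓ₀) i) → (∀ i, (x i).det = 1) →
      ∀ f ∈ Pol, vala f x (1 : Matrix (Fin m) (Fin m) (Lc ℓ₀)) = 0 := by
    intro x hx hxd f hf
    obtain ⟨e⟩ := embC ℓ₀
    have h1 := hbig (fun i => (x i).map e.toRingHom) (fun i => by
      rw [← hJC e.toRingHom i, ← Matrix.transpose_map, ← Matrix.map_mul, ← Matrix.map_mul,
        hx i]) (fun i => by rw [hmd, hxd i, map_one]) f hf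
    have h2 : (1 : Matrix (Fin m) (Fin m) ℂ) =
        (1 : Matrix (Fin m) (Fin m) (Lc ℓ₀)).map e.toRingHom :=
      (Matrix.map_one _ (map_zero _) (map_one _)).symm
    rw [h2, vala_map] at h1
    exact (map_eq_zero e.toRingHom).1 h1
  have hall : ∀ f : Pf (Lc ℓ₀) N, (∀ σ : GK K, evf (up fun i => (ρ i).comp s σ) f = 0) →
      Van (up (JL J ℓ₀)) f := by
    intro f hf x hx hxd
    have h1 := (hone x 1 (fun i => by rw [hxd i]; exact one_ne_zero)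
      (by rw [det_one]; exact one_ne_zero)).2 (hbigL x hx hxd) (inc m f)
      (fun σ => by rw [eva_inc]; exact hf σ)
    rw [eva_inc] at h1
    exact h1
  intro X hX
  exact joint_of_zar (G := GK K) (ρ := fun i => (ρ i).comp s)
    (fun i => (hρc i).comp hs) hform hpos (fun i g => ⟨_, hmult i (s g)⟩)
    (zarF_of (ρ := fun i => (ρ i).comp s) (fun i => form_symm (hform i))
      (fun i => hdetL i) hall) X hX

/-- **the motivic Tate conjecture at every prime** for motives with a rational point -/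
theorem mot_every (hS : S.Finite) (hs : Continuous s)
    (J : ∀ i, Matrix (Fin (N i)) (Fin (N i)) ℚ)
    (hfit : ∀ i, Fits (kd i) (J i)) (hdet : ∀ i, (J i).det ≠ 0) (hw : ∀ i, (J i)ᵀ = J i → w i = 0)
    (α : Γ →* Matrix (Fin m) (Fin m) ℚ) {U : Subgroup Γ} (hU : IsOpen (U : Set Γ))
    (hUα : ∀ σ ∈ U, α σ = 1)
    (κ : ∀ (ℓ : ℕ) [Fact ℓ.Prime], Γ →* ℚ_[ℓ])
    (hκc : ∀ (ℓ : ℕ) [Fact ℓ.Prime], Continuous fun g => κ ℓ (s g))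
    (hκ : ∀ (ℓ : ℕ) [Fact ℓ.Prime], ∀ v ∉ S, (ℓ : 𝓞 K) ∉ v.asIdeal → ∀ σ : GK K, IsFrobenius v σ →
      κ ℓ (s σ⁻¹) = (Ideal.absNorm v.asIdeal : ℚ_[ℓ]))
    (ρ : ∀ (i : ι) (ℓ : ℕ) [Fact ℓ.Prime], Γ →* Matrix (Fin (N i)) (Fin (N i)) ℚ_[ℓ])
    (hρc : ∀ (i : ι) (ℓ : ℕ) [Fact ℓ.Prime], Continuous (ρ i ℓ))
    (hmult : ∀ (i : ι) (ℓ : ℕ) [Fact ℓ.Prime] (g : Γ),
      Sim (JL J ℓ i) (ρ i ℓ g) (κ ℓ g ^ w i))
    (hfrob : ∀ (i : ι) (ℓ : ℕ) [Fact ℓ.Prime], ∀ v ∉ S, (ℓ : 𝓞 K) ∉ v.asIdeal → ∀ σ : GK K,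
      IsFrobenius v σ → (ρ i ℓ (s σ⁻¹)).charpoly = (P i v).map (algebraMap ℚ ℚ_[ℓ]))
    (Pol : Set (Pa ℚ N m))
    (hpol : ∀ (x : ∀ i, Matrix (Fin (N i)) (Fin (N i)) ℂ) (a : Matrix (Fin m) (Fin m) ℂ),
      (∀ i, (x i).det ≠ 0) → a.det ≠ 0 → (∀ f ∈ Pol, vala f x a = 0) →
      ∃ t : ℂ, t ≠ 0 ∧ ∀ i, Sim ((J i).map (algebraMap ℚ ℂ)) (x i) (t ^ w i))
    (hbig : ∀ x : ∀ i, Matrix (Fin (N i)) (Fin (N i)) ℂ,
      (∀ i, (x i)ᵀ * (J i).map (algebraMap ℚ ℂ) * x i = (J i).map (algebraMap ℚ ℂ)) →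
      (∀ i, (x i).det = 1) → ∀ f ∈ Pol, vala f x (1 : Matrix (Fin m) (Fin m) ℂ) = 0)
    (hgal : ∀ (ℓ : ℕ) [Fact ℓ.Prime] (σ : Γ), ∀ f ∈ Pol,
      vala f (fun i => ρ i ℓ σ) ((α σ).map (algebraMap ℚ ℚ_[ℓ])) = 0)
    (ℓ₀ : ℕ) [hℓ₀ : Fact ℓ₀.Prime] (hal : ∀ i, Allows (kd i) (N i) ℓ₀ (JL J ℓ₀ i))
    (hone : MTateA Pol (fun i => (ρ i ℓ₀).comp s) (α.comp s))
    (hK : finrank ℚ K = 1) (n : ι → ℕ) (hn : ∀ i, 0 < w i + 2 * n i)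
    (hint : ∀ i, ∀ v ∉ S, ∃ R : ℤ[X],
      R.map (algebraMap ℤ ℚ) = (P i v).scaleRoots ((Ideal.absNorm v.asIdeal : ℚ) ^ n i))
    (hpure : ∀ i, ∀ v ∉ S, ∀ z : ℂ, aeval z (P i v) = 0 →
      ‖z‖ ^ 2 = (Ideal.absNorm v.asIdeal : ℝ) ^ w i) :
    ∀ (ℓ : ℕ) [Fact ℓ.Prime], (∀ i, SC (ρ i ℓ)) → MTateA Pol (fun i => ρ i ℓ) α := by
  intro ℓ _ hsc
  refine (mtateA_main hS hs J hfit hdet hw α hU hUα κ hκ ρ hρc hmult hfrob Pol hpol hbig hgal ℓ₀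
    hal hone).2 ℓ (fun i => ?_) hsc
  have hfull := full_one (w := w) hs J hfit hdet α ℓ₀ (κ ℓ₀) (fun i => ρ i ℓ₀) (fun i => hρc i ℓ₀)
    (fun i => hmult i ℓ₀) Pol hbig hone
  have hform : ∀ (ℓ : ℕ) [Fact ℓ.Prime] (i : ι), IsForm (JL J ℓ i) := fun ℓ _ i =>
    ((hfit i).map (algebraMap ℚ ℚ_[ℓ])).isForm (det_map_ne (algebraMap ℚ ℚ_[ℓ]) (hdet i))
  exact ss_every hK s hs (w := w i) hS (fun ℓ _ => JL J ℓ i)
    (fun ℓ _ => hform ℓ i) κ hκc hκ (ρ i) (hρc i) (hmult i) (hfrob i) (n i) (hn i) (hint i)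
    (hpure i) ℓ₀ (Pool.Agent.R932.PO.one_of_joint hfull i) ℓ

end

end Pool.Agent.N536.OP
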